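import Pool.Agent.Helper79.KM.Kummer

/-!
# Exponents modulo three and modulo five without even height

Modulo three all the vectors with ten nonzero residues are permutations of one vector; modulo five
all the vectors with ten nonzero residues such that no multiple has even height are permutations
of vectors in the plane.
-/

set_option autoImplicit false

namespace Pool.Agent.Helper40.KM

open Pool.Agent.Helper73.QC Pool.Agent.Helper79.KM

/-- the four moves of `Permuted` -/
def step {R : Type} [CommRing R] : ℕ → (Fin 5 → R) → (Fin 5 → R)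
  | 0, b => ![b 2, b 3, b 0, b 1, b 4]
  | 1, b => ![b 1, b 0, b 3, b 2, b 4]
  | 2, b => ![-(b 0 + b 1 + b 4), b 1, -(b 2 + b 3 + b 4), b 3, b 4]
  | _, b => ![b 0, b 4, -(b 0 + b 1 + b 2 + b 3 + b 4), b 3, b 1]

theorem permuted_step {R : Type} [CommRing R] {a b : Fin 5 → R} (h : Permuted a b) :
    ∀ i, Permuted a (step i b)
  | 0 => h.xy
  | 1 => h.zeroOne
  | 2 => h.zeroInf
  | _ + 3 => h.oneY

theorem step_step {R : Type} [CommRing R] (b : Fin 5 → R) : ∀ i, step i (step i b) = b
  | 0 => by funext i; fin_cases i <;> rfl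
  | 1 => by funext i; fin_cases i <;> rfl
  | 2 => by
    funext i
    fin_cases i <;> simp [step] <;> ring
  | _ + 3 => by
    funext i
    fin_cases i <;> simp [step]
    ring

theorem of_word {R : Type} [CommRing R] {p : Fin 5 → R} (w : List ℕ) :
    ∀ a : Fin 5 → R, w.foldl (fun b i => step i b) a = p → Permuted p a := by
  induction w with
  | nil =>
    intro a h
    rw [List.foldl_nil] at h
    rw [h]
    exact .refl
  | cons i w ih =>
    intro a h
    rw [List.foldl_cons] at h
    have h1 := permuted_step (ih _ h) i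
    rwa [step_step] at h1

/-- the moves for natural numbers modulo `r`, and the test for vectors in the plane -/
def run (r : ℕ) : List ℕ → ℕ → ℕ → ℕ → ℕ → ℕ → Bool
  | [], a, b, c, d, e => (a + b) % r == 0 && (a + c) % r == 0 && (b + d) % r == 0 &&
    !(a % r == 0) && !(e % r == 0)
  | 0 :: w, a, b, c, d, e => run r w c d a b e
  | 1 :: w, a, b, c, d, e => run r w b a d c e
  | 2 :: w, a, b, c, d, e => run r w ((r - 1) * (a + b + e) % r) b ((r - 1) * (c + d + e) % r) d e
  | _ :: w, a, b, c, d, e => run r w a e ((r - 1) * (a + b + c + d + e) % r) d b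

section

variable {r : ℕ} [hr : Fact r.Prime]

theorem cast_neg_mod (x : ℕ) : (((r - 1) * x % r : ℕ) : ZMod r) = -(x : ZMod r) := by
  rw [ZMod.natCast_mod, Nat.cast_mul, Nat.cast_sub hr.out.one_lt.le, ZMod.natCast_self]
  push_cast
  ring

theorem of_run : ∀ (w : List ℕ) (a b c d e : ℕ), run r w a b c d e = true →
    ∃ s t : ZMod r, s ≠ 0 ∧ t ≠ 0 ∧ w.foldl (fun b i => step i b)
      ![(a : ZMod r), (b : ZMod r), (c : ZMod r), (d : ZMod r), (e : ZMod r)] = planeVec s t
  | [], a, b, c, d, e, h => by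
    rw [run] at h
    simp only [Bool.and_eq_true, beq_iff_eq, Bool.not_eq_true', beq_eq_false_iff_ne, ne_eq] at h
    obtain ⟨⟨⟨⟨h1, h2⟩, h3⟩, h4⟩, h5⟩ := h
    have k' : ∀ x : ℕ, ¬ x % r = 0 → (x : ZMod r) ≠ 0 := fun x hx h =>
      hx (Nat.mod_eq_zero_of_dvd ((ZMod.natCast_eq_zero_iff x r).1 h))
    have k : ∀ x : ℕ, x % r = 0 → (x : ZMod r) = 0 := fun x hx =>
      (ZMod.natCast_eq_zero_iff x r).2 (Nat.dvd_of_mod_eq_zero hx)
    have e1 := k _ h1
    have e2 := k _ h2
    have e3 := k _ h3
    push_cast at e1 e2 e3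
    refine ⟨a, -e, k' a h4, neg_ne_zero.2 (k' e h5), ?_⟩
    rw [List.foldl_nil]
    funext i
    fin_cases i
    · rfl
    · change (b : ZMod r) = -(a : ZMod r)
      linear_combination e1
    · change (c : ZMod r) = -(a : ZMod r)
      linear_combination e2
    · change (d : ZMod r) = (a : ZMod r)
      linear_combination e3 - e1
    · change (e : ZMod r) = -(-(e : ZMod r))
      ring
  | 0 :: w, a, b, c, d, e, h => of_run w c d a b e h
  | 1 :: w, a, b, c, d, e, h => of_run w b a d c e h
  | 2 :: w, a, b, c, d, e, h => by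
    obtain ⟨s, t, hs, ht, hst⟩ := of_run w _ _ _ _ _ h
    refine ⟨s, t, hs, ht, ?_⟩
    rw [← hst, List.foldl_cons]
    congr 1
    rw [cast_neg_mod, cast_neg_mod]
    push_cast
    rfl
  | (i + 3) :: w, a, b, c, d, e, h => by
    obtain ⟨s, t, hs, ht, hst⟩ := of_run w _ _ _ _ _ h
    refine ⟨s, t, hs, ht, ?_⟩
    rw [← hst, List.foldl_cons]
    congr 1
    rw [cast_neg_mod]
    push_cast
    rfl

/-- an even height among the multiples -/
def evenHeight (r a b c d e : ℕ) : Bool :=
  (List.range (r - 1)).any fun x => ((((x + 1) * a % r + (x + 1) * b % r + (x + 1) * c % r +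
    (x + 1) * d % r + (x + 1) * e % r + (x + 1) * ((r - 1) * (a + b + e)) % r +
    (x + 1) * ((r - 1) * (c + d + e)) % r + (x + 1) * (a + c + e) % r +
    (x + 1) * (b + d + e) % r + (x + 1) * ((r - 1) * (a + b + c + d + e)) % r) / r) % 2 == 0)

/-- a residue is zero -/
def degenerate (r a b c d e : ℕ) : Bool :=
  (a == 0) || (b == 0) || (c == 0) || (d == 0) || (e == 0) || ((a + b + e) % r == 0) ||
    ((c + d + e) % r == 0) || ((a + c + e) % r == 0) || ((b + d + e) % r == 0) ||
    ((a + b + c + d + e) % r == 0)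

def check (r : ℕ) (W : List (List ℕ)) : Bool :=
  (List.range r).all fun a => (List.range r).all fun b => (List.range r).all fun c =>
    (List.range r).all fun d => (List.range r).all fun e =>
      degenerate r a b c d e || evenHeight r a b c d e || W.any fun w => run r w a b c d e

theorem of_check {W : List (List ℕ)} (hc : check r W = true) (a : Fin 5 → ZMod r)
    (ha : ∀ i, residues a i ≠ 0) :
    (∃ h : (ZMod r)ˣ, Even (height fun i => (h : ZMod r) * a i)) ∨
      ∃ s t : ZMod r, s ≠ 0 ∧ t ≠ 0 ∧ Permuted (planeVec s t) a := by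
  have hr1 := hr.out.one_lt
  have hcast : ∀ i, (((a i).val : ℕ) : ZMod r) = a i := fun i => ZMod.natCast_zmod_val _
  rw [check] at hc
  have h1 := List.all_eq_true.1 hc _ (List.mem_range.2 (ZMod.val_lt (a 0)))
  have h2 := List.all_eq_true.1 h1 _ (List.mem_range.2 (ZMod.val_lt (a 1)))
  have h3 := List.all_eq_true.1 h2 _ (List.mem_range.2 (ZMod.val_lt (a 2)))
  have h4 := List.all_eq_true.1 h3 _ (List.mem_range.2 (ZMod.val_lt (a 3)))
  have h5 := List.all_eq_true.1 h4 _ (List.mem_range.2 (ZMod.val_lt (a 4)))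
  rw [Bool.or_eq_true, Bool.or_eq_true] at h5
  rcases h5 with (h5 | h5) | h5
  · exfalso
    have hv : ∀ i, (a i).val = 0 → a i = 0 := fun i h => (ZMod.val_eq_zero _).1 h
    have hz : ∀ x : ℕ, x % r = 0 → (x : ZMod r) = 0 := fun x hx =>
      (ZMod.natCast_eq_zero_iff x r).2 (Nat.dvd_of_mod_eq_zero hx)
    simp only [degenerate, Bool.or_eq_true, beq_iff_eq] at h5
    rcases h5 with ((((((((h | h) | h) | h) | h) | h) | h) | h) | h) | h
    · exact ha 0 (hv 0 h)
    · exact ha 1 (hv 1 h)
    · exact ha 2 (hv 2 h)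
    · exact ha 3 (hv 3 h)
    · exact ha 4 (hv 4 h)
    · have h := hz _ h
      push_cast at h
      rw [hcast, hcast, hcast] at h
      apply ha 5
      change -(a 0 + a 1 + a 4) = 0
      rw [h, neg_zero]
    · have h := hz _ h
      push_cast at h
      rw [hcast, hcast, hcast] at h
      apply ha 6
      change -(a 2 + a 3 + a 4) = 0
      rw [h, neg_zero]
    · have h := hz _ h
      push_cast at h
      rw [hcast, hcast, hcast] at h
      exact ha 7 h
    · have h := hz _ h
      push_cast at h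
      rw [hcast, hcast, hcast] at h
      exact ha 8 h
    · have h := hz _ h
      push_cast at h
      rw [hcast, hcast, hcast, hcast, hcast] at h
      apply ha 9
      change -(a 0 + a 1 + a 2 + a 3 + a 4) = 0
      rw [h, neg_zero]
  · left
    rw [evenHeight, List.any_eq_true] at h5
    obtain ⟨x, hx, hx'⟩ := h5
    rw [List.mem_range] at hx
    rw [beq_iff_eq] at hx'
    have hx1 : ((x + 1 : ℕ) : ZMod r) ≠ 0 := by
      rw [Ne, ZMod.natCast_eq_zero_iff]
      intro hd
      have := Nat.le_of_dvd (Nat.succ_pos x) hd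
      omega
    refine ⟨Units.mk0 _ hx1, ?_⟩
    rw [Nat.even_iff, ← hx', height]
    have key : ∀ (i : Fin 10) (y : ℕ), (y : ZMod r) = residues a i →
        (residues (fun j => ((Units.mk0 _ hx1 : (ZMod r)ˣ) : ZMod r) * a j) i).val =
          (x + 1) * y % r := by
      intro i y hy
      rw [residues_mul, ← hy, Units.val_mk0, ← Nat.cast_mul, ZMod.val_natCast]
    have hneg : ∀ y : ℕ, (((r - 1) * y : ℕ) : ZMod r) = -(y : ZMod r) := by
      intro y
      rw [← cast_neg_mod y, ZMod.natCast_mod]
    have k0 := key 0 (a 0).val (hcast 0)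
    have k1 := key 1 (a 1).val (hcast 1)
    have k2 := key 2 (a 2).val (hcast 2)
    have k3 := key 3 (a 3).val (hcast 3)
    have k4 := key 4 (a 4).val (hcast 4)
    have k5 := key 5 ((r - 1) * ((a 0).val + (a 1).val + (a 4).val)) (by
      rw [hneg]
      push_cast
      rw [hcast, hcast, hcast]
      rfl)
    have k6 := key 6 ((r - 1) * ((a 2).val + (a 3).val + (a 4).val)) (by
      rw [hneg]
      push_cast
      rw [hcast, hcast, hcast]
      rfl)
    have k7 := key 7 ((a 0).val + (a 2).val + (a 4).val) (by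
      push_cast
      rw [hcast, hcast, hcast]
      rfl)
    have k8 := key 8 ((a 1).val + (a 3).val + (a 4).val) (by
      push_cast
      rw [hcast, hcast, hcast]
      rfl)
    have k9 := key 9 ((r - 1) * ((a 0).val + (a 1).val + (a 2).val + (a 3).val + (a 4).val)) (by
      rw [hneg]
      push_cast
      rw [hcast, hcast, hcast, hcast, hcast]
      rfl)
    have hsum : ∀ f : Fin 10 → ℕ, ∑ i, f i =
        f 0 + f 1 + f 2 + f 3 + f 4 + f 5 + f 6 + f 7 + f 8 + f 9 := by
      intro f
      simp only [Fin.sum_univ_succ, Fin.sum_univ_zero]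
      simp
      ring
    rw [hsum, k0, k1, k2, k3, k4, k5, k6, k7, k8, k9]
  · right
    rw [List.any_eq_true] at h5
    obtain ⟨w, -, hw⟩ := h5
    obtain ⟨s, t, hs, ht, hst⟩ := of_run w _ _ _ _ _ hw
    refine ⟨s, t, hs, ht, of_word w a ?_⟩
    rw [← hst]
    congr 1
    funext i
    fin_cases i
    exacts [(hcast 0).symm, (hcast 1).symm, (hcast 2).symm, (hcast 3).symm, (hcast 4).symm]

end

theorem check_three : check 3 [[], [2], [1, 2]] = true := by decide +kernel

theorem check_five : check 5 [[], [2], [1, 2], [3], [0, 3], [2, 3], [0, 2, 3], [1, 2, 3],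
    [3, 1, 2], [0, 1, 2, 3], [0, 3, 1, 2], [1, 3, 1, 2], [0, 1, 3, 1, 2], [2, 1, 3, 1, 2],
    [0, 2, 1, 3, 1, 2]] = true := by decide +kernel

/-- exponents modulo three: there is one class -/
theorem three (a : Fin 5 → ZMod 3) (ha : ∀ i, residues a i ≠ 0) :
    (∃ h : (ZMod 3)ˣ, Even (height fun i => (h : ZMod 3) * a i)) ∨
      ∃ s t : ZMod 3, s ≠ 0 ∧ t ≠ 0 ∧ Permuted (planeVec s t) a :=
  have : Fact (Nat.Prime 3) := ⟨Nat.prime_three⟩
  of_check check_three a ha

/-- exponents modulo five -/
theorem five (a : Fin 5 → ZMod 5) (ha : ∀ i, residues a i ≠ 0) :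
    (∃ h : (ZMod 5)ˣ, Even (height fun i => (h : ZMod 5) * a i)) ∨
      ∃ s t : ZMod 5, s ≠ 0 ∧ t ≠ 0 ∧ Permuted (planeVec s t) a :=
  have : Fact (Nat.Prime 5) := ⟨Nat.prime_five⟩
  of_check check_five a ha

end Pool.Agent.Helper40.KM
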