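import Pool.Agent.Helper79.KM.PairTwo
import Pool.Agent.Helper79.KM.Five

/-!
# The pentagon function modulo fifth powers

The number of points of the complement of the quadrilateral at which the pentagon function
`x (1 - y) / ((1 - x) y (x - y))` is a fifth power is congruent to `q + 1` modulo `25`.
-/

set_option autoImplicit false

open Finset

namespace Pool.Agent.Helper40.KM

open Pool.Agent.Helper79.KM Pool.Agent.Helper44.KM Pool.Agent.Helper73.LF Pool.Agent.Helper73.QC

section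

variable {K : Type*} [Field K] [Fintype K] [DecidableEq K]

/-- the rotation of the five points -/
def rot (P : K × K) : K × K := (P.2 / P.1, P.2 * (1 - P.1) / (P.1 * (1 - P.2)))

/-- the inverse rotation -/
def rinv (P : K × K) : K × K := ((P.1 - P.2) / (P.1 * (1 - P.2)), (P.1 - P.2) / (1 - P.2))

theorem rot_mem {P : K × K} (h : P ∈ pts K) : rot P ∈ pts K := by
  obtain ⟨x, y⟩ := P
  rw [mem_pts] at h ⊢
  obtain ⟨hx0, hx1, hy0, hy1, hxy⟩ := h
  simp only at hx0 hx1 hy0 hy1 hxy
  have a1 : 1 - x ≠ 0 := sub_ne_zero.2 hx1.symm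
  have a2 : 1 - y ≠ 0 := sub_ne_zero.2 hy1.symm
  have a3 : x - y ≠ 0 := sub_ne_zero.2 hxy
  simp only [rot]
  refine ⟨div_ne_zero hy0 hx0, ?_, div_ne_zero (mul_ne_zero hy0 a1) (mul_ne_zero hx0 a2), ?_, ?_⟩
  · intro h
    rw [div_eq_one_iff_eq hx0] at h
    exact hxy h.symm
  · intro h
    rw [div_eq_one_iff_eq (mul_ne_zero hx0 a2)] at h
    apply a3
    linear_combination -h
  · intro h
    rw [div_eq_div_iff hx0 (mul_ne_zero hx0 a2)] at h
    apply mul_ne_zero (mul_ne_zero hx0 hy0) a3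
    linear_combination h

theorem rinv_mem {P : K × K} (h : P ∈ pts K) : rinv P ∈ pts K := by
  obtain ⟨x, y⟩ := P
  rw [mem_pts] at h ⊢
  obtain ⟨hx0, hx1, hy0, hy1, hxy⟩ := h
  simp only at hx0 hx1 hy0 hy1 hxy
  have a1 : 1 - x ≠ 0 := sub_ne_zero.2 hx1.symm
  have a2 : 1 - y ≠ 0 := sub_ne_zero.2 hy1.symm
  have a3 : x - y ≠ 0 := sub_ne_zero.2 hxy
  simp only [rinv]
  refine ⟨div_ne_zero a3 (mul_ne_zero hx0 a2), ?_, div_ne_zero a3 a2, ?_, ?_⟩
  · intro h
    rw [div_eq_one_iff_eq (mul_ne_zero hx0 a2)] at h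
    apply mul_ne_zero hy0 a1
    linear_combination -h
  · intro h
    rw [div_eq_one_iff_eq a2] at h
    apply a1
    linear_combination -h
  · intro h
    rw [div_eq_div_iff (mul_ne_zero hx0 a2) a2] at h
    apply mul_ne_zero (mul_ne_zero a3 a2) a1
    linear_combination h

theorem rinv_rot {P : K × K} (h : P ∈ pts K) : rinv (rot P) = P := by
  obtain ⟨x, y⟩ := P
  rw [mem_pts] at h
  obtain ⟨hx0, hx1, hy0, hy1, hxy⟩ := h
  simp only at hx0 hx1 hy0 hy1 hxy
  have a1 : 1 - x ≠ 0 := sub_ne_zero.2 hx1.symm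
  have a2 : 1 - y ≠ 0 := sub_ne_zero.2 hy1.symm
  have a3 : x - y ≠ 0 := sub_ne_zero.2 hxy
  have e1 : 1 - y * (1 - x) / (x * (1 - y)) = (x - y) / (x * (1 - y)) := by
    field_simp
    ring
  have e2 : y / x - y * (1 - x) / (x * (1 - y)) = y * (x - y) / (x * (1 - y)) := by
    field_simp
    ring
  simp only [rot, rinv]
  rw [e1, e2]
  refine Prod.ext ?_ ?_
  · change y * (x - y) / (x * (1 - y)) / (y / x * ((x - y) / (x * (1 - y)))) = x
    field_simp
  · change y * (x - y) / (x * (1 - y)) / ((x - y) / (x * (1 - y))) = y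
    field_simp

theorem rot_rot {P : K × K} (h : P ∈ pts K) :
    rot (rot P) = ((1 - P.1) / (1 - P.2), 1 - P.1) := by
  obtain ⟨x, y⟩ := P
  rw [mem_pts] at h
  obtain ⟨hx0, hx1, hy0, hy1, hxy⟩ := h
  simp only at hx0 hx1 hy0 hy1 hxy
  have a1 : 1 - x ≠ 0 := sub_ne_zero.2 hx1.symm
  have a2 : 1 - y ≠ 0 := sub_ne_zero.2 hy1.symm
  have a3 : x - y ≠ 0 := sub_ne_zero.2 hxy
  have e1 : 1 - y * (1 - x) / (x * (1 - y)) = (x - y) / (x * (1 - y)) := by
    field_simp
    ring
  have e2 : 1 - y / x = (x - y) / x := by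
    field_simp
  simp only [rot]
  rw [e1, e2]
  refine Prod.ext ?_ ?_
  · change y * (1 - x) / (x * (1 - y)) / (y / x) = (1 - x) / (1 - y)
    field_simp
  · change y * (1 - x) / (x * (1 - y)) * ((x - y) / x) / (y / x * ((x - y) / (x * (1 - y)))) =
      1 - x
    field_simp

theorem rot_four {P : K × K} (h : P ∈ pts K) : rot (rot (rot (rot P))) = rinv P := by
  have h2 := rot_mem (rot_mem h)
  rw [rot_rot h2, rot_rot h]
  obtain ⟨x, y⟩ := P
  rw [mem_pts] at h
  obtain ⟨hx0, hx1, hy0, hy1, hxy⟩ := h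
  simp only at hx0 hx1 hy0 hy1 hxy
  have a1 : 1 - x ≠ 0 := sub_ne_zero.2 hx1.symm
  have a2 : 1 - y ≠ 0 := sub_ne_zero.2 hy1.symm
  have e2 : 1 - (1 - x) / (1 - y) = (x - y) / (1 - y) := by
    field_simp
    ring
  simp only [rinv]
  rw [e2, sub_sub_cancel]
  refine Prod.ext ?_ rfl
  change (x - y) / (1 - y) / x = (x - y) / (x * (1 - y))
  field_simp

theorem rot_five {P : K × K} (h : P ∈ pts K) : rot (rot (rot (rot (rot P)))) = P := by
  rw [rot_four (rot_mem h), rinv_rot h]

theorem rot_rinv {P : K × K} (h : P ∈ pts K) : rot (rinv P) = P := by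
  rw [← rot_four h, rot_five h]

end

section

variable {K : Type*} [Field K] [Fintype K] [DecidableEq K] {l : K → ZMod 5}

/-- the logarithm of the pentagon function -/
def lf (l : K → ZMod 5) (P : K × K) : ZMod 5 := lam l P - dif l P

/-- the logarithm of the function `x (1 - x) ^ 2 y ^ 3 (1 - y) ^ 4` -/
def lk (l : K → ZMod 5) (P : K × K) : ZMod 5 :=
  l P.1 + 2 * l (1 - P.1) + 3 * l P.2 + 4 * l (1 - P.2)

variable [hr : Fact (Nat.Prime 5)]

theorem log_rot (hl : IsLog l) {P : K × K} (h : P ∈ pts K) :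
    lf l (rot P) = lf l P ∧ lk l (rot P) = lk l P - lf l P := by
  obtain ⟨x, y⟩ := P
  rw [mem_pts] at h
  obtain ⟨hx0, hx1, hy0, hy1, hxy⟩ := h
  simp only at hx0 hx1 hy0 hy1 hxy
  have a1 : 1 - x ≠ 0 := sub_ne_zero.2 hx1.symm
  have a2 : 1 - y ≠ 0 := sub_ne_zero.2 hy1.symm
  have a3 : x - y ≠ 0 := sub_ne_zero.2 hxy
  have e1 : 1 - y * (1 - x) / (x * (1 - y)) = (x - y) / (x * (1 - y)) := by
    field_simp
    ring
  have e2 : 1 - y / x = (x - y) / x := by
    field_simp
  have e3 : y / x - y * (1 - x) / (x * (1 - y)) = y * (x - y) / (x * (1 - y)) := by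
    field_simp
    ring
  have h5 : (5 : ZMod 5) = 0 := rfl
  simp only [lf, lk, lam, dif, rot]
  rw [e1, e2, e3, hl.div hy0 hx0, hl.div (mul_ne_zero hy0 a1) (mul_ne_zero hx0 a2),
    hl.div a3 (mul_ne_zero hx0 a2), hl.div a3 hx0, hl.div (mul_ne_zero hy0 a3)
    (mul_ne_zero hx0 a2), hl.mul _ _ hy0 a1, hl.mul _ _ hx0 a2, hl.mul _ _ hy0 a3]
  constructor
  · ring
  · linear_combination (l (x - y) - 2 * l x - l (1 - y) * 2) * h5

/-- the number of points with given logarithms -/
def num (l : K → ZMod 5) (u v : ZMod 5) : ℕ := ((pts K).filter fun P => lf l P = u ∧ lk l P = v).card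

theorem num_sub (hl : IsLog l) (u v : ZMod 5) : num l u v = num l u (v - u) := by
  refine card_bij' (fun P _ => rot P) (fun P _ => rinv P) ?_ ?_ ?_ ?_
  · intro P hP
    rw [mem_filter] at hP ⊢
    obtain ⟨h1, h2, h3⟩ := hP
    obtain ⟨k1, k2⟩ := log_rot hl h1
    exact ⟨rot_mem h1, by rw [k1, h2], by rw [k2, h2, h3]⟩
  · intro P hP
    rw [mem_filter] at hP ⊢
    obtain ⟨h1, h2, h3⟩ := hP
    obtain ⟨k1, k2⟩ := log_rot hl (rinv_mem h1)
    rw [rot_rinv h1] at k1 k2
    refine ⟨rinv_mem h1, by rw [← k1, h2], ?_⟩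
    rw [← k1, h2, h3] at k2
    linear_combination -k2
  · intro P hP
    rw [mem_filter] at hP
    exact rinv_rot hP.1
  · intro P hP
    rw [mem_filter] at hP
    exact rot_rinv hP.1

theorem num_const (hl : IsLog l) {u : ZMod 5} (hu : u ≠ 0) (v : ZMod 5) :
    num l u v = num l u 0 := by
  have h : ∀ n : ℕ, num l u v = num l u (v - n * u) := by
    intro n
    induction n with
    | zero => rw [Nat.cast_zero, zero_mul, sub_zero]
    | succ n ih =>
      rw [ih, num_sub hl]
      congr 1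
      push_cast
      ring
  have h1 := h (v / u).val
  rw [ZMod.natCast_zmod_val, div_mul_cancel₀ _ hu, sub_self] at h1
  exact h1

/-- the number of points where the second logarithm is given -/
theorem sum_num (l : K → ZMod 5) (v : ZMod 5) :
    ((pts K).filter fun P => lk l P = v).card = ∑ u, num l u v := by
  classical
  rw [card_eq_sum_card_fiberwise (f := lf l) (t := univ) fun _ _ => mem_univ _]
  refine sum_congr rfl fun u _ => ?_
  rw [num, filter_filter]
  congr 1
  refine filter_congr fun P _ => ?_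
  rw [and_comm]

theorem sum_num' (l : K → ZMod 5) (u : ZMod 5) :
    ((pts K).filter fun P => lf l P = u).card = ∑ v, num l u v := by
  classical
  rw [card_eq_sum_card_fiberwise (f := lk l) (t := univ) fun _ _ => mem_univ _]
  refine sum_congr rfl fun v _ => ?_
  rw [num, filter_filter]

theorem num_zero (hl : IsLog l) (v : ZMod 5) :
    (num l 0 0 : ℤ) - num l 0 v = ((pts K).filter fun P => lk l P = 0).card -
      ((pts K).filter fun P => lk l P = v).card := by
  rw [sum_num, sum_num, ← add_sum_erase _ _ (mem_univ (0 : ZMod 5)),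
    ← add_sum_erase _ (fun u => num l u v) (mem_univ (0 : ZMod 5))]
  have h : ∑ u ∈ univ.erase (0 : ZMod 5), num l u 0 =
      ∑ u ∈ univ.erase (0 : ZMod 5), num l u v := by
    refine sum_congr rfl fun u hu => ?_
    rw [num_const hl (ne_of_mem_erase hu) v]
  rw [h]
  push_cast
  ring

omit [DecidableEq K] [Fintype K] in
theorem log_sq (hl : IsLog l) (x : K) : l (x ^ 2) = 2 * l x := by
  rcases eq_or_ne x 0 with rfl | h
  · rw [zero_pow two_ne_zero, hl.zero, mul_zero]
  · rw [sq, hl.mul _ _ h h]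
    ring

omit [DecidableEq K] [Fintype K] in
theorem log_cube (hl : IsLog l) (x : K) : l (x ^ 3) = 3 * l x := by
  rcases eq_or_ne x 0 with rfl | h
  · rw [zero_pow three_ne_zero, hl.zero, mul_zero]
  · rw [pow_succ, hl.mul _ _ (pow_ne_zero 2 h) h, log_sq hl]
    ring

/-- the golden section is fixed -/
theorem golden {x : K} (hx : x ^ 2 + x = 1) (hl : IsLog l) :
    (x, x ^ 2) ∈ pts K ∧ lf l (x, x ^ 2) = 0 ∧ lk l (x, x ^ 2) = 0 ∧ rot (x, x ^ 2) = (x, x ^ 2) := by
  have hx0 : x ≠ 0 := by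
    rintro rfl
    apply one_ne_zero (α := K)
    linear_combination -hx
  have hx1 : 1 - x = x ^ 2 := by linear_combination -hx
  have hx2 : 1 - x ^ 2 = x := by linear_combination -hx
  have hx3 : x - x ^ 2 = x ^ 3 := by linear_combination -x * hx
  have h50 : (5 : ZMod 5) = 0 := rfl
  refine ⟨?_, ?_, ?_, ?_⟩
  · rw [mem_pts]
    refine ⟨hx0, ?_, pow_ne_zero 2 hx0, ?_, ?_⟩
    · intro h
      change x = 1 at h
      apply pow_ne_zero 2 hx0
      rw [← hx1, h, sub_self]
    · intro h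
      change x ^ 2 = 1 at h
      apply hx0
      rw [← hx2, h, sub_self]
    · intro h
      change x = x ^ 2 at h
      apply pow_ne_zero 3 hx0
      rw [← hx3, ← h, sub_self]
  · simp only [lf, lam, dif]
    rw [hx1, hx2, hx3, log_sq hl, log_cube hl]
    linear_combination -l x * h50
  · simp only [lk]
    rw [hx1, hx2, log_sq hl]
    linear_combination 3 * l x * h50
  · simp only [rot]
    rw [hx1, hx2]
    refine Prod.ext ?_ ?_
    · change x ^ 2 / x = x
      field_simp
    · change x ^ 2 * x ^ 2 / (x * x) = x ^ 2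
      field_simp

omit hr in
/-- the fixed points of the rotation -/
theorem fixed {P : K × K} (h : P ∈ pts K) (hP : rot P = P) : P.1 ^ 2 + P.1 = 1 ∧ P.2 = P.1 ^ 2 := by
  obtain ⟨x, y⟩ := P
  rw [mem_pts] at h
  obtain ⟨hx0, hx1, hy0, hy1, hxy⟩ := h
  simp only at hx0 hx1 hy0 hy1 hxy
  have a1 : 1 - x ≠ 0 := sub_ne_zero.2 hx1.symm
  have a2 : 1 - y ≠ 0 := sub_ne_zero.2 hy1.symm
  simp only [rot, Prod.mk.injEq] at hP
  obtain ⟨h1, h2⟩ := hP
  rw [div_eq_iff hx0] at h1
  rw [div_eq_iff (mul_ne_zero hx0 a2)] at h2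
  refine ⟨?_, by rw [h1]; ring⟩
  have h3 : y * ((1 - x) * (x ^ 2 + x - 1)) = 0 := by
    rw [h1] at h2 ⊢
    linear_combination -h2
  rcases mul_eq_zero.1 h3 with h4 | h4
  · exact absurd h4 hy0
  · rcases mul_eq_zero.1 h4 with h5 | h5
    · exact absurd h5 a1
    · change x ^ 2 + x = 1
      linear_combination h5

omit [DecidableEq K] hr in
theorem five_ne_zero (hK : Fintype.card K % 5 = 1) : (5 : K) ≠ 0 := by
  intro h
  have h1 := FiniteField.cast_card_eq_zero K
  rw [← Nat.div_add_mod (Fintype.card K) 5, hK] at h1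
  push_cast at h1
  rw [h, zero_mul, zero_add] at h1
  exact one_ne_zero h1

omit [DecidableEq K] in
/-- the two roots -/
theorem exists_roots (hK : Fintype.card K % 5 = 1) : ∃ x y : K, x ≠ y ∧ x ^ 2 + x = 1 ∧
    y ^ 2 + y = 1 ∧ ∀ z : K, z ^ 2 + z = 1 → z = x ∨ z = y := by
  classical
  have h5 : 5 ∣ Fintype.card Kˣ := by
    rw [Fintype.card_units]
    omega
  obtain ⟨u, hu⟩ := exists_prime_orderOf_dvd_card 5 h5
  have hz5 : (u : K) ^ 5 = 1 := by
    have h := pow_orderOf_eq_one u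
    rw [hu] at h
    rw [← Units.val_pow_eq_pow_val, h, Units.val_one]
  have hz1 : (u : K) ≠ 1 := by
    intro h
    rw [Units.val_eq_one] at h
    rw [h, orderOf_one] at hu
    omega
  generalize (u : K) = z at hz5 hz1
  have hz : z ^ 4 + z ^ 3 + z ^ 2 + z + 1 = 0 := by
    have h : (z - 1) * (z ^ 4 + z ^ 3 + z ^ 2 + z + 1) = 0 := by linear_combination hz5
    exact (mul_eq_zero.1 h).resolve_left (sub_ne_zero.2 hz1)
  have hx : (z + z ^ 4) ^ 2 + (z + z ^ 4) = 1 := by
    linear_combination (z ^ 4 - z ^ 3 + 1) * hz + 2 * hz5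
  refine ⟨z + z ^ 4, -1 - (z + z ^ 4), ?_, hx, ?_, ?_⟩
  · intro h
    apply five_ne_zero hK
    linear_combination (2 * (z + z ^ 4) + 1) * h - 4 * hx
  · linear_combination hx
  · intro w hw
    have h : (w - (z + z ^ 4)) * (w - (-1 - (z + z ^ 4))) = 0 := by
      linear_combination hw - hx
    rcases mul_eq_zero.1 h with h | h
    · exact Or.inl (sub_eq_zero.1 h)
    · exact Or.inr (sub_eq_zero.1 h)

/-- the rotation on the points where both logarithms vanish -/
theorem num_mod (hl : IsLog l) (hK : Fintype.card K % 5 = 1) : num l 0 0 % 5 = 2 := by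
  classical
  set A : Finset (K × K) := (pts K).filter fun P => lf l P = 0 ∧ lk l P = 0 with hA
  have hmem : ∀ P : K × K, P ∈ A ↔ P ∈ pts K ∧ lf l P = 0 ∧ lk l P = 0 := fun P => by
    rw [hA, mem_filter]
  have hrot : ∀ P ∈ A, rot P ∈ A := by
    intro P hP
    rw [hmem] at hP ⊢
    obtain ⟨h1, h2, h3⟩ := hP
    obtain ⟨k1, k2⟩ := log_rot hl h1
    exact ⟨rot_mem h1, by rw [k1, h2], by rw [k2, h2, h3, sub_zero]⟩
  let f : Function.End A := fun P => ⟨rot P.1, hrot P.1 P.2⟩
  have hf : f ^ 5 ^ 1 = 1 := by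
    funext P
    apply Subtype.ext
    exact rot_five ((hmem _).1 P.2).1
  have h1 := Equiv.Perm.card_fixedPoints_modEq hf
  obtain ⟨x, y, hxy, hx, hy, hall⟩ := exists_roots hK
  have gx := golden hx hl
  have gy := golden hy hl
  have h2 : Fintype.card (Function.fixedPoints f) = 2 := by
    rw [← Set.toFinset_card]
    have e : (Function.fixedPoints f).toFinset =
        {⟨(x, x ^ 2), (hmem _).2 ⟨gx.1, gx.2.1, gx.2.2.1⟩⟩,
          ⟨(y, y ^ 2), (hmem _).2 ⟨gy.1, gy.2.1, gy.2.2.1⟩⟩} := by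
      ext P
      rw [Set.mem_toFinset, Function.mem_fixedPoints, Function.IsFixedPt, mem_insert,
        mem_singleton]
      constructor
      · intro h
        have h3 : rot P.1 = P.1 := congrArg Subtype.val h
        obtain ⟨h4, h5⟩ := fixed ((hmem _).1 P.2).1 h3
        rcases hall _ h4 with h6 | h6
        · left
          apply Subtype.ext
          exact Prod.ext h6 (by rw [h5, h6])
        · right
          apply Subtype.ext
          exact Prod.ext h6 (by rw [h5, h6])
      · rintro (h | h)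
        · rw [h]
          apply Subtype.ext
          exact gx.2.2.2
        · rw [h]
          apply Subtype.ext
          exact gy.2.2.2
    rw [e, card_pair]
    intro h
    exact hxy (congrArg (fun P : A => P.1.1) h)
  rw [h2, Fintype.card_coe] at h1
  exact h1

/-- the pentagon function is a fifth power at `q + 1` points modulo `25` -/
theorem pentagon (hK : Fintype.card K % 5 = 1) (hl : IsLog l) (h0 : ∃ x, l x ≠ 0) :
    (25 : ℤ) ∣ (((pts K).filter fun P => lam l P = dif l P).card : ℤ) -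
      (Fintype.card K + 1) := by
  have h1 : ((pts K).filter fun P => lam l P = dif l P).card = ∑ v, num l 0 v := by
    rw [← sum_num']
    congr 1
    refine filter_congr fun P _ => ?_
    rw [lf, sub_eq_zero]
  have h2 : ∀ v : ZMod 5, v ≠ 0 → (num l 0 v : ℤ) = num l 0 0 - (Fintype.card K + 1) := by
    intro v hv
    have h3 := num_zero hl v
    have h4 := kappa_count hK hl h0 hv
    have h5 : ((pts K).filter fun P => lk l P = 0).card =
        (((pts K).filter fun P => lk l P = v).card : ℤ) + (Fintype.card K + 1) := h4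
    rw [h5] at h3
    linear_combination -h3
  have h3 : (((pts K).filter fun P => lam l P = dif l P).card : ℤ) =
      5 * num l 0 0 - 4 * (Fintype.card K + 1) := by
    rw [h1]
    push_cast
    rw [← add_sum_erase _ _ (mem_univ (0 : ZMod 5)),
      sum_congr rfl fun v hv => h2 v (ne_of_mem_erase hv), sum_const, card_erase_of_mem
        (mem_univ _), card_univ, ZMod.card]
    ring
  have h4 := num_mod hl hK
  obtain ⟨a, ha⟩ : ∃ a : ℤ, (num l 0 0 : ℤ) = 5 * a + 2 := ⟨(num l 0 0 / 5 : ℕ), by omega⟩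
  obtain ⟨b, hb⟩ : ∃ b : ℤ, (Fintype.card K : ℤ) = 5 * b + 1 :=
    ⟨(Fintype.card K / 5 : ℕ), by omega⟩
  rw [h3, ha, hb]
  exact ⟨a - b, by ring⟩

end

/-- the product of two conjugate sums for the exponents in a plane modulo five -/
theorem five_ne {K L : Type} [Field K] [Fintype K] [DecidableEq K] [Field L] [CharZero L]
    [IsAlgClosed L] (hK : Fintype.card K % 5 = 1) (hK25 : Fintype.card K % 25 ≠ 1)
    {τ : MulChar K L} (hτ : orderOf τ = Fintype.card K - 1) {a : Fin 5 → ZMod 5} {s t : ZMod 5}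
    (hs : s ≠ 0) (ht : t ≠ 0) (hP : Permuted (planeVec s t) a) :
    quad (ch τ (a 0)) (ch τ (a 1)) (ch τ (a 2)) (ch τ (a 3)) (ch τ (a 4)) *
      quad (ch τ (a 0))⁻¹ (ch τ (a 1))⁻¹ (ch τ (a 2))⁻¹ (ch τ (a 3))⁻¹ (ch τ (a 4))⁻¹ ≠
        4 * (Fintype.card K : L) ^ 2 :=
  have : Fact (Nat.Prime 5) := ⟨by norm_num⟩
  five_ne_aux (fun _ hl h0 => pentagon hK hl h0) hK hK25 hτ hs ht hP

end Pool.Agent.Helper40.KM
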